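import Pool.Agent.W434.BW.StmB

/-! Project BW, part WALK: consistency passes to absorbing subsystems. -/

set_option autoImplicit false

open Pool.Agent.W434.BW

namespace Pool.Agent.W135.BW

section
variable {V St A : Type}

/-- the subsystem -/
def sub' (S : Sys V St A) (E' : St → A → A → Prop) (D : V → Set A) : Sys V St A :=
  { S with E := E', P := D }

variable {S : Sys V St A} {E' : St → A → A → Prop} {D : V → Set A}

theorem isPath_iff (l : List St) (x y : V) :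
    (sub' S E' D).IsPath l x y ↔ S.IsPath l x y := by
  induction l generalizing x with
  | nil => exact Iff.rfl
  | cons s l ih =>
    show (S.src s = x ∧ (sub' S E' D).IsPath l (S.tgt s) y) ↔ (S.src s = x ∧ S.IsPath l (S.tgt s) y)
    rw [ih]

theorem rl_le (hE : ∀ s a b, E' s a b → S.E s a b) (l : List St) (a b : A)
    (h : (sub' S E' D).Rl l a b) : S.Rl l a b := by
  induction l generalizing a with
  | nil => exact h
  | cons s l ih =>
    obtain ⟨c, h1, h2⟩ := h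
    exact ⟨c, hE s a c h1, ih c h2⟩

theorem rl_t {t : A → A → A → A}
    (ht : ∀ s a1 b1 a2 b2 a3 b3, E' s a1 b1 → E' s a2 b2 → S.E s a3 b3 →
      E' s (t a1 a2 a3) (t b1 b2 b3) ∧ E' s (t a1 a3 a2) (t b1 b3 b2) ∧
      E' s (t a3 a1 a2) (t b3 b1 b2)) (l : List St) :
    ∀ a1 b1 a2 b2 a3 b3, (sub' S E' D).Rl l a1 b1 → (sub' S E' D).Rl l a2 b2 → S.Rl l a3 b3 →
      (sub' S E' D).Rl l (t a1 a2 a3) (t b1 b2 b3) ∧
      (sub' S E' D).Rl l (t a1 a3 a2) (t b1 b3 b2) ∧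
      (sub' S E' D).Rl l (t a3 a1 a2) (t b3 b1 b2) := by
  induction l with
  | nil =>
    intro a1 b1 a2 b2 a3 b3 h1 h2 h3
    have e1 : a1 = b1 := h1
    have e2 : a2 = b2 := h2
    have e3 : a3 = b3 := h3
    subst e1 e2 e3
    exact ⟨rfl, rfl, rfl⟩
  | cons s l ih =>
    intro a1 b1 a2 b2 a3 b3 h1 h2 h3
    obtain ⟨c1, h11, h12⟩ := h1
    obtain ⟨c2, h21, h22⟩ := h2
    obtain ⟨c3, h31, h32⟩ := h3
    obtain ⟨p1, p2, p3⟩ := ht s a1 c1 a2 c2 a3 c3 h11 h21 h31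
    obtain ⟨q1, q2, q3⟩ := ih c1 b1 c2 b2 c3 b3 h12 h22 h32
    exact ⟨⟨_, p1, q1⟩, ⟨_, p2, q2⟩, ⟨_, p3, q3⟩⟩

end

theorem walk (hP : S_pr) : S_walk := by
  intro V St A _ S E' D t hS hQ hS' hid hE ht
  change (sub' S E' D).Qc
  change (sub' S E' D).Ok at hS'
  intro s π ρ hπ' hρ'
  have hπ : S.IsPath π (S.src s) (S.tgt s) := (isPath_iff _ _ _).1 hπ'
  have hρ : S.IsPath ρ (S.tgt s) (S.src s) := (isPath_iff _ _ _).1 hρ'
  set S' : Sys V St A := sub' S E' D with hS'def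
  set x := S.src s with hx
  set y := S.tgt s with hy
  set c : List St := π ++ ρ with hc
  have hcp : S.IsPath c x x := by
    rw [hc, Sys.isPath_append]
    exact ⟨y, hπ, hρ⟩
  obtain ⟨N, hN⟩ := hP V St A S hS hQ x c hcp
  obtain ⟨NQ, hNQ⟩ := hQ s π ρ hπ hρ
  have hDP : ∀ z a, a ∈ D z → a ∈ S.P z := by
    intro z a ha
    have h1 : E' (S.idst z) a a := (hS'.id_E z a a).2 ⟨rfl, ha⟩
    exact ((hS.id_E z a a).1 (hE _ _ _ h1)).2
  -- `θ` and powers
  have hpow : ∀ m n, N ≤ n → ∀ a ∈ S.P x, ∀ b, S.Rl (rep m c) a b → S.Rl (rep n c) a b :=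
    fun m n hn => (hN n hn).2.2.2 m
  have hsym : ∀ n, N ≤ n → ∀ a ∈ S.P x, ∀ b, S.Rl (rep n c) a b → S.Rl (rep n c) b a :=
    fun n hn => (hN n hn).2.1
  have htr : ∀ n, N ≤ n → ∀ a ∈ S.P x, ∀ b d, S.Rl (rep n c) a b → S.Rl (rep n c) b d →
      S.Rl (rep n c) a d := fun n hn => (hN n hn).2.2.1
  have hrepP : ∀ n a b, a ∈ S.P x → S.Rl (rep n c) a b → b ∈ S.P x := fun n a b ha hab =>
    S.rl_dom hS (rep n c) x x (S.isPath_rep c x hcp n) a b ha hab
  -- paths `c ^ L ++ π`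
  have hpathL : ∀ L, S.IsPath (rep L c ++ π) x y := fun L => by
    rw [Sys.isPath_append]; exact ⟨x, S.isPath_rep c x hcp L, hπ⟩
  have hQ' : ∀ L, NQ ≤ L → ∀ a b, S.E s a b → S.Rl (rep L c ++ π) a b := by
    intro L hL a b hab
    have := hNQ L hL a b hab
    rwa [rep_shift] at this
  refine ⟨3 * (N + NQ), fun j hj a b hab => ?_⟩
  change E' s a b at hab
  rw [rep_shift]
  have habE : S.E s a b := hE s a b hab
  have haD : a ∈ D x := (hS'.dom s a b hab).1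
  have hbD : b ∈ D y := (hS'.dom s a b hab).2
  have haP : a ∈ S.P x := hDP _ _ haD
  have hbP : b ∈ S.P y := hDP _ _ hbD
  -- (i)
  have hi : ∀ e ∈ S.P x, ∀ L, S.Rl (rep L c ++ π) e b → S.Rl (rep N c) a e := by
    intro e he L hL
    obtain ⟨f, hf, hbf⟩ := S.rl_ext hS ρ y x hρ b hbP
    have h1 : ∀ L e, S.Rl (rep L c ++ π) e b → S.Rl (rep (L + 1) c) e f := by
      intro L e h
      rw [rep_succ']
      have : rep L c ++ c = (rep L c ++ π) ++ ρ := by rw [hc, List.append_assoc]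
      rw [this, Sys.rl_append]
      exact ⟨b, h, hbf⟩
    have h2 : S.Rl (rep N c) e f := hpow _ N le_rfl e he f (h1 L e hL)
    have h3 : S.Rl (rep N c) a f := hpow _ N le_rfl a haP f (h1 NQ a (hQ' NQ le_rfl a b habE))
    exact htr N le_rfl a haP f e h3 (hsym N le_rfl e he f h2)
  -- extension in the subsystem
  have hpath' : ∀ n, S'.IsPath (rep n c) x x := fun n =>
    (isPath_iff _ _ _).2 (S.isPath_rep c x hcp n)
  have hpathL' : ∀ L, S'.IsPath (rep L c ++ π) x y := fun L => (isPath_iff _ _ _).2 (hpathL L)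
  have hfwd : ∀ n, ∀ e ∈ D x, ∃ f ∈ D x, S'.Rl (rep n c) e f := fun n e he =>
    S'.rl_ext hS' (rep n c) x x (hpath' n) e he
  have hbwd : ∀ L, ∃ e ∈ D x, S'.Rl (rep L c ++ π) e b := by
    intro L
    obtain ⟨e, he, h⟩ := S'.rl_ext hS' (S'.rv (rep L c ++ π)) y x
      (S'.isPath_rv hS' _ x y (hpathL' L)) b hbD
    exact ⟨e, he, (S'.rl_rv hS' _ e b).1 h⟩
  have hle : ∀ l a b, S'.Rl l a b → S.Rl l a b := fun l a b h => rl_le hE l a b h
  -- lengths
  obtain ⟨L3, hL3, hj3⟩ : ∃ L3, N + NQ ≤ L3 ∧ j = (N + NQ) + (N + NQ) + L3 :=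
    ⟨j - 2 * (N + NQ), by omega, by omega⟩
  set L : ℕ := N + NQ with hL
  have hNL : N ≤ L := by omega
  -- walk 1
  obtain ⟨e2, he2D, he2⟩ := hbwd (L + L3)
  have he2P : e2 ∈ S.P x := hDP _ _ he2D
  have w1 : S.Rl (rep L c) a e2 :=
    hpow N L hNL a haP e2 (hi e2 he2P (L + L3) (hle _ _ _ he2))
  rw [rep_add, List.append_assoc, Sys.rl_append] at he2
  obtain ⟨e2', w1', w1''⟩ := he2
  -- walk 2
  obtain ⟨a1, ha1D, w2⟩ := hfwd L a haD
  obtain ⟨e3, he3D, w2''⟩ := hbwd L3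
  have he3P : e3 ∈ S.P x := hDP _ _ he3D
  have w2' : S.Rl (rep L c) a1 e3 := by
    have h1 : S.Rl (rep L c) a1 a := hsym L hNL a haP a1 (hle _ _ _ w2)
    have h2 : S.Rl (rep L c) a e3 := hpow N L hNL a haP e3 (hi e3 he3P L3 (hle _ _ _ w2''))
    exact htr L hNL a1 (hDP _ _ ha1D) a e3 h1 h2
  -- walk 3
  obtain ⟨a1', ha1D', w3⟩ := hfwd L a haD
  obtain ⟨a2, ha2D, w3'⟩ := hfwd L a1' ha1D'
  have w3'' : S.Rl (rep L3 c ++ π) a2 b := by
    have h1 : S.Rl (rep (L + L) c) a a2 := by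
      rw [rep_add, Sys.rl_append]
      exact ⟨a1', hle _ _ _ w3, hle _ _ _ w3'⟩
    have h2 : S.Rl (rep N c) a2 a := hsym N le_rfl a haP a2 (hpow _ N le_rfl a haP a2 h1)
    have h3 : S.Rl (rep (L3 - N) c ++ π) a b := hQ' _ (by omega) a b habE
    have h4 : rep L3 c ++ π = rep N c ++ (rep (L3 - N) c ++ π) := by
      rw [← List.append_assoc, ← rep_add]
      congr 2
      omega
    rw [h4, Sys.rl_append]
    exact ⟨a, h2, h3⟩
  -- the three phases
  have p1 := (rl_t ht (rep L c) a a1 a a1' a e2 w2 w3 w1).2.2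
  have p2 := (rl_t ht (rep L c) e2 e2' a1' a2 a1 e3 w1' w3' w2').2.1
  have p3 := (rl_t ht (rep L3 c ++ π) e2' b e3 b a2 b w1'' w2'' w3'').1
  rw [hid] at p1 p3
  rw [hj3, rep_add, rep_add, List.append_assoc, List.append_assoc, Sys.rl_append]
  refine ⟨_, p1, ?_⟩
  rw [Sys.rl_append]
  exact ⟨_, p2, p3⟩

end Pool.Agent.W135.BW
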